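import Pool.Agent.H18.GW.Ext

/-!
# HB: if the generators are bounded for the word `x ^ e w(y)` then all elements are bounded
-/

set_option autoImplicit false

open scoped commutatorElement

namespace Pool.Agent.H36.GWD

open Pool.Agent.H11.EL Pool.Agent.H11.KT Pool.Agent.H18.GW

/-- natural powers of bounded elements -/
theorem pw_pow {r : ℕ} {w : FreeGroup (Fin r)} {G : Type} [Group G] {m : ℕ} {g : G}
    (h : PW w m g) (n : ℕ) : PW w (n * m) (g ^ n) := by
  induction n with
  | zero => simpa using PW.one (w := w) (G := G) 0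
  | succ n ih =>
    rw [pow_succ, Nat.succ_mul]
    exact ih.mul h

/-- integral powers of bounded elements are bounded for the word `x ^ e w(y)` -/
theorem pw_zpow {r : ℕ} {w : FreeGroup (Fin r)} {G : Type} [Group G] {e : ℕ} (he : 0 < e)
    {m : ℕ} {g : G} (h : PW (w2 e w) m g) (a : ℤ) : PW (w2 e w) (1 + e * m) (g ^ a) := by
  have he' : (0 : ℤ) < e := by exact_mod_cast he
  have h1 : g ^ a = (g ^ (a / e)) ^ e * g ^ (a % e).toNat := by
    rw [← zpow_natCast, ← zpow_natCast g, ← zpow_mul, ← zpow_add,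
      Int.toNat_of_nonneg (Int.emod_nonneg _ he'.ne')]
    congr 1
    rw [mul_comm]
    exact (Int.mul_ediv_add_emod a e).symm
  rw [h1]
  refine (pow_w2 w e _).mul ((pw_pow h _).mono (Nat.mul_le_mul_right m ?_))
  have h2 := Int.emod_lt_of_pos a he'
  have h3 := Int.emod_nonneg a he'.ne'
  omega

/-- elements of a finitely generated group modulo the derived group -/
theorem exists_prod {L : Type} [Group L] {s : ℕ} (κ : Fin s → L)
    (hκ : Subgroup.closure (Set.range κ) = ⊤) (h : L) :
    ∃ a : Fin s → ℤ, ((List.ofFn fun i => κ i ^ a i).prod)⁻¹ * h ∈ commutator L := by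
  have h1 : Abelianization.of h ∈ Subgroup.closure (Set.range fun i => Abelianization.of (κ i)) := by
    have h2 : Set.range (fun i => Abelianization.of (κ i)) =
        Abelianization.of '' Set.range κ := by
      rw [← Set.range_comp]
      rfl
    rw [h2, ← MonoidHom.map_closure, hκ]
    exact ⟨h, trivial, rfl⟩
  obtain ⟨a, ha⟩ := Subgroup.exists_of_mem_closure_range _ _ h1
  refine ⟨a, ?_⟩
  rw [← Abelianization.ker_of, MonoidHom.mem_ker, map_mul, map_inv, ha, map_list_prod,
    List.map_ofFn, List.prod_ofFn]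
  have e : ∀ i, (⇑(Abelianization.of (G := L)) ∘ fun i => κ i ^ a i) i =
      Abelianization.of (κ i) ^ a i := fun i => by
    simp
  rw [Finset.prod_congr rfl fun i _ => e i, inv_mul_cancel]

theorem pf_HB (hKP : P_KP) : T_HB := by
  intro r w e he s m
  obtain ⟨M₀, hM₀⟩ := hKP (r + 1) (w2 e w) s m
  refine ⟨s * (1 + e * m) + M₀, ?_⟩
  intro G _ L _ hL κ hκ hb h hh
  have h0 : ∀ g ∈ ⁅L, L⁆, PW (w2 e w) M₀ g := by
    refine hM₀ G L hL κ (fun _ => 1) hκ (fun _ => Subgroup.one_mem _) fun i => ?_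
    rw [inv_one, one_mul]
    exact hb i
  have hmem : ∀ i, κ i ∈ L := fun i => hκ ▸ Subgroup.subset_closure ⟨i, rfl⟩
  have h1 : Subgroup.closure (Set.range fun i => (⟨κ i, hmem i⟩ : L)) = ⊤ := by
    apply Subgroup.map_injective L.subtype_injective
    rw [MonoidHom.map_closure, ← MonoidHom.range_eq_map, L.range_subtype, ← Set.range_comp]
    exact hκ
  obtain ⟨a, ha⟩ := exists_prod (fun i => (⟨κ i, hmem i⟩ : L)) h1 ⟨h, hh⟩
  have h2 : ((List.ofFn fun i => κ i ^ a i).prod)⁻¹ * h ∈ ⁅L, L⁆ := by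
    rw [← Subgroup.map_subtype_commutator]
    refine ⟨_, ha, ?_⟩
    rw [map_mul, map_inv, map_list_prod, List.map_ofFn]
    have e1 : (⇑L.subtype ∘ fun i => (⟨κ i, hmem i⟩ : L) ^ a i) = fun i => κ i ^ a i := by
      funext i
      simp
    rw [e1]
    rfl
  have h3 : PW (w2 e w) (s * (1 + e * m)) (List.ofFn fun i => κ i ^ a i).prod := by
    have h4 := PW.list (w := w2 e w) (k := 1 + e * m) (List.ofFn fun i => κ i ^ a i) (by
      intro x hx
      obtain ⟨i, rfl⟩ := (List.mem_ofFn' _ _).1 hx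
      exact pw_zpow he (hb i) (a i))
    rwa [List.length_ofFn] at h4
  have h5 := h3.mul (h0 _ h2)
  rwa [mul_inv_cancel_left] at h5

end Pool.Agent.H36.GWD
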