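import Pool.Agent.H18.GW.Ext
import Pool.Agent.H6.KT.KKI

/-!
# NS: the elements of `⁅N, G⁆` as products of conjugates (Nikolov, Segal)
-/

set_option autoImplicit false

open scoped commutatorElement

namespace Pool.Agent.H36.GWD

open Pool.Agent.H11.EL Pool.Agent.H11.KT Pool.Agent.H18.GW Pool.Agent.H6.KT

theorem pf_NS (hSX : T_SX) (hHC : T_HC) (hGS : K_GS) (hFS : F_FS) (hPI : K_PI) (hPR : K_PR) :
    T_NS := by
  intro d s
  suffices HH : ∀ Nc : ℕ, ∀ (G : Type) [Group G] [Finite G], Nat.card G = Nc →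
      Group.IsSolvable G → ∀ h : Fin d → G, Subgroup.closure (Set.range h) = ⊤ → ∀ n : ℕ → G,
      Subgroup.closure (en s n) = ⊤ → ∀ N : Subgroup G, N.Normal →
      ∀ g ∈ ⁅N, (⊤ : Subgroup G)⁆,
        ∃ c : ℕ → G, (∀ i, c i ∈ N) ∧ Px (2 * s * (4 * (d + 3))) (cj (pat s n) c) = g ∧
          Subgroup.closure (en (2 * s * (4 * (d + 3))) (cj (pat s n) c)) = ⊤ by
    intro G _ _ hG h hh n hn N hN g hg
    exact HH _ G rfl hG h hh n hn N hN g hg
  intro Nc
  induction Nc using Nat.strong_induction_on with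
  | _ Nc ih =>
    intro G _ _ hNc hG h hh n hn N hN g hg
    by_cases hnil : ∃ k, N ≤ Subgroup.upperCentralSeries G k
    · obtain ⟨k, hk⟩ := hnil
      exact hHC G N hN k hk s (4 * (d + 3)) n (by omega) hn g hg
    · push Not at hnil
      obtain ⟨M, Z, hMN, hCF⟩ := hSX G hG N hN hnil
      have nM := hCF.nM
      have hM : M ≠ ⊥ := by
        intro h
        have := hCF.lt
        rw [h] at this
        exact not_lt_bot this
      have hcard : Nat.card (G ⧸ M) < Nc := by
        rw [← hNc]
        have h1 := Subgroup.card_eq_card_quotient_mul_card_subgroup M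
        have h2 : 1 < Nat.card M := by
          rw [Subgroup.one_lt_card_iff_ne_bot]; exact hM
        have h3 : 0 < Nat.card (G ⧸ M) := Nat.card_pos
        rw [h1]
        nlinarith
      have hq := QuotientGroup.mk'_surjective M
      have hh' : Subgroup.closure (Set.range fun j => QuotientGroup.mk' M (h j)) = ⊤ := by
        have h1 := congrArg (Subgroup.map (QuotientGroup.mk' M)) hh
        rw [MonoidHom.map_closure, Subgroup.map_top_of_surjective _ hq, ← Set.range_comp] at h1
        exact h1
      have hsol : Group.IsSolvable (G ⧸ M) := inferInstance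
      have hN' : (N.map (QuotientGroup.mk' M)).Normal := hN.map _ hq
      have hg' : QuotientGroup.mk' M g ∈ ⁅N.map (QuotientGroup.mk' M), (⊤ : Subgroup (G ⧸ M))⁆ := by
        have h1 : (⁅N, (⊤ : Subgroup G)⁆).map (QuotientGroup.mk' M) =
            ⁅N.map (QuotientGroup.mk' M), (⊤ : Subgroup (G ⧸ M))⁆ := by
          rw [Subgroup.map_commutator, Subgroup.map_top_of_surjective _ hq]
        rw [← h1]
        exact ⟨g, hg, rfl⟩
      have hn' : Subgroup.closure (en s (fun i => QuotientGroup.mk' M (n i))) = ⊤ := by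
        have h1 := congrArg (Subgroup.map (QuotientGroup.mk' M)) hn
        rw [MonoidHom.map_closure, Subgroup.map_top_of_surjective _ hq, en_map] at h1
        exact h1
      obtain ⟨c', hcN, hc, hcl⟩ := ih _ hcard (G ⧸ M) rfl hsol _ hh' _ hn' _ hN' _ hg'
      choose c hcN' hcc using fun i => Subgroup.mem_map.1 (hcN i)
      have ec : c' = fun i => QuotientGroup.mk' M (c i) := funext fun i => (hcc i).symm
      have et : cj (pat s fun i => QuotientGroup.mk' M (n i)) c' =
          fun i => QuotientGroup.mk' M (cj (pat s n) c i) := by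
        rw [cj_map, pat_map, ec]
      rw [et] at hc hcl
      rw [← Px_map] at hc
      set K := 2 * s * (4 * (d + 3)) with hKdef
      set t := cj (pat s n) c with ht
      have hκ : g * (Px K t)⁻¹ ∈ M := by
        rw [← QuotientGroup.eq_one_iff]
        change QuotientGroup.mk' M _ = 1
        rw [map_mul, map_inv, hc, mul_inv_cancel]
      -- the estimate
      have hn2 : Subgroup.closure (en s n ∪ (commutator G : Set G)) = ⊤ := by
        rw [eq_top_iff, ← hn]
        exact Subgroup.closure_mono Set.subset_union_left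
      obtain ⟨n₁, ⟨i₀, hi₀, rfl⟩, hcz⟩ := hFS G hG M Z hCF (en s n) hn2
      have h1 := hPR G M Z hCF.nM hCF.nZ hCF.lt.le s (4 * (d + 3)) n c i₀ hi₀ hcz
      rw [← hKdef, ← ht] at h1
      have h2 := hPI G M Z K t
      rw [← h2] at h1
      have h3 : Nat.card {u : Fin K → M // ∀ i : Fin K, ⁅((u i : M) : G), t i⁆ ∈ Z} *
          Z.relIndex M ^ (2 * (d + 3)) ≤ Nat.card M ^ K := by
        refine le_of_pow_le_pow_left₀ (n := 4) (by norm_num) (Nat.zero_le _) ?_
        rw [mul_pow, ← pow_mul, ← pow_mul, mul_comm K 4]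
        have e1 : 2 * (d + 3) * 4 = 2 * (4 * (d + 3)) := by ring
        rw [e1]
        exact h1
      obtain ⟨x, hx, hP, hcl'⟩ := hGS G M Z hCF d h hh K t (KI_comap_closure M _ t hcl) h3 _ hκ
      refine ⟨fun i => x i * c i, fun i => N.mul_mem (hMN (hx i)) (hcN' i), ?_, ?_⟩
      · rw [← cj_cj, ← ht, Px_cj, hP, inv_mul_cancel_right]
      · rw [← cj_cj, ← ht]
        exact hcl'

end Pool.Agent.H36.GWD
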