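import Pool.Agent.H18.GW.Targets2

/-!
# UG: a criterion for good words
-/

set_option autoImplicit false

open scoped commutatorElement

namespace Pool.Agent.H36.GWD

open Pool.Agent.H11.EL Pool.Agent.H11.KT Pool.Agent.H18.GW

/-- the subgroup generated by the powers is normal -/
theorem Pw_normal (n : ℕ) (G : Type) [Group G] : (Pw n G).Normal := by
  refine ⟨fun x hx g => ?_⟩
  unfold Pw at hx ⊢
  induction hx using Subgroup.closure_induction with
  | mem x hx =>
    obtain ⟨y, rfl⟩ := hx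
    refine Subgroup.subset_closure ⟨g * y * g⁻¹, ?_⟩
    rw [conj_pow]
  | one =>
    rw [mul_one, mul_inv_cancel]
    exact Subgroup.one_mem _
  | mul x y _ _ hx hy =>
    have e : g * (x * y) * g⁻¹ = (g * x * g⁻¹) * (g * y * g⁻¹) := by group
    rw [e]
    exact Subgroup.mul_mem _ hx hy
  | inv x _ hx =>
    have e : g * x⁻¹ * g⁻¹ = (g * x * g⁻¹)⁻¹ := by group
    rw [e]
    exact Subgroup.inv_mem _ hx

/-- the terms of the derived series are finitely generated -/
theorem derived_fg (hRD : T_RD) (m : ℕ) (H : Type) [Group H] (hH : Group.FG H)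
    (h : ∀ A : Subgroup H, Rst m A) (i : ℕ) : (derivedSeries H i).FG := by
  induction i with
  | zero =>
    rw [derivedSeries_zero]
    exact hH.out
  | succ i ih =>
    have h1 : Group.FG (derivedSeries H i) := (Group.fg_iff_subgroup_fg _).2 ih
    have h2 := hRD m (derivedSeries H i) h1 (h _)
    rw [derivedSeries_succ, ← Subgroup.map_subtype_commutator]
    rw [Subgroup.fg_iff_submonoid_fg] at h2 ⊢
    exact h2.map (derivedSeries H i).subtype

theorem pf_UG (hFN : T_FN) (hRD : T_RD) (hUC : T_UC) : T_UG := by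
  intro r w m hw H _ hFG hlaw
  have hN : (Pw 2 H).Normal := Pw_normal 2 H
  have hsq : ∀ x : H, x ^ 2 ∈ Pw 2 H := fun x => Subgroup.subset_closure ⟨x, rfl⟩
  have hsq' : ∀ x : H ⧸ Pw 2 H, x ^ 2 = 1 := by
    intro x
    obtain ⟨y, rfl⟩ := QuotientGroup.mk'_surjective (Pw 2 H) x
    rw [← map_pow]
    exact (QuotientGroup.eq_one_iff _).2 (hsq y)
  have hinv : ∀ x : H ⧸ Pw 2 H, x⁻¹ = x := by
    intro x
    have := hsq' x
    rw [pow_two] at this
    exact inv_eq_of_mul_eq_one_left this
  have hcomm : ∀ x y : H ⧸ Pw 2 H, x * y = y * x := by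
    intro x y
    rw [← hinv (x * y), mul_inv_rev, hinv, hinv]
  have hnil : Group.IsNilpotent (H ⧸ Pw 2 H) := by
    let i : CommGroup (H ⧸ Pw 2 H) :=
      { (inferInstance : Group (H ⧸ Pw 2 H)) with mul_comm := hcomm }
    exact @CommGroup.isNilpotent (H ⧸ Pw 2 H) i
  have hfin : Finite (H ⧸ Pw 2 H) := by
    have := hFG
    exact hFN (H ⧸ Pw 2 H) inferInstance hnil 2 (by norm_num) hsq'
  have hle : commutator H ≤ Pw 2 H := by
    rw [commutator_def, Subgroup.commutator_le]
    intro x _ y _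
    refine (QuotientGroup.eq_one_iff _).1 ?_
    show QuotientGroup.mk' (Pw 2 H) ⁅x, y⁆ = 1
    rw [map_commutatorElement, commutatorElement_eq_one_iff_mul_comm]
    exact hcomm _ _
  obtain ⟨h1, h2⟩ := hUC H (Pw 2 H) hN hle (fun Y hY => (hw H hlaw).2 Y hY)
  refine ⟨Pw 2 H, hN, Subgroup.finiteIndex_of_finite_quotient, hsq, fun g hg => ?_⟩
  refine ⟨derivedSeries H 5, derived_fg hRD m H hFG (fun A => (hw A (Law_sub hlaw A)).1) 5, ?_,
    h2 hg⟩
  rw [← derivedSeries_succ]
  exact h1

end Pool.Agent.H36.GWD
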